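import Mathlib
import Pool.Agent.helper88.LoadModel
import Pool.Agent.helper88.LoadLowerBound

/-!
# No constant competitive ratio with constantly many amortized reassignments per event

Answer to Q1 of MP_4bcfd7_lc: no. The model (events, legal sequences, loads, `OPT`, online algorithms,
`cost`, `reassignments`) is in `Pool.Agent.helper88.LoadModel`, the proof in
`Pool.Agent.helper88.LoadLowerBound`.
-/

set_option autoImplicit false

namespace Pool.Agent.Results.MP_4bcfd7_lc.NoConstantReassignments

open Pool.Agent.Helper88.LoadModel

/-- For all constants `c` and `C` there are a number `n > 0` of machines and one finite legal sequence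
`σ` of arrivals and departures of unit tasks, in which every task has exactly two eligible machines
and for which `OPT(σ) = 1`, such that every online algorithm has cost greater than `c * OPT(σ)` on `σ`
or makes more than `C` times the number of events reassignments on `σ`. As `σ` does not depend on the
algorithm, and the algorithm may be any function of the history, this covers algorithms that know `σ`
in advance. -/
theorem result (c C : ℝ) : ∃ n : ℕ, 0 < n ∧ ∃ σ : List (Event n), Valid σ ∧
    (∀ j M, Event.arrive j M ∈ σ → M.card = 2) ∧ OPT σ = 1 ∧
    ∀ A : OnlineAlgorithm n,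
      c * (OPT σ : ℝ) < (A.cost σ : ℝ) ∨ C * (σ.length : ℝ) < (A.reassignments σ : ℝ) :=
  Pool.Agent.Helper88.LoadLowerBound.main_lower_bound c C

/-- The negated form of Q1, word for word: for all constants `c` and `C`, no online algorithm (one for
each positive number `n + 1` of machines) is both `c`-competitive and makes, on every sequence, at most
`C` times the number of events reassignments. -/
theorem no_online_algorithm (c C : ℝ) : ¬ ∃ A : (n : ℕ) → OnlineAlgorithm (n + 1),
    (∀ (n : ℕ) (σ : List (Event (n + 1))), Valid σ → ((A n).cost σ : ℝ) ≤ c * (OPT σ : ℝ)) ∧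
    (∀ (n : ℕ) (σ : List (Event (n + 1))), Valid σ →
      ((A n).reassignments σ : ℝ) ≤ C * (σ.length : ℝ)) := by
  rintro ⟨A, h1, h2⟩
  obtain ⟨n, hn, σ, hσ, -, -, h⟩ := result c C
  obtain ⟨m, rfl⟩ := Nat.exists_eq_succ_of_ne_zero hn.ne'
  rcases h (A m) with h | h
  · exact absurd (h1 m σ hσ) (not_le.2 h)
  · exact absurd (h2 m σ hσ) (not_le.2 h)

end Pool.Agent.Results.MP_4bcfd7_lc.NoConstantReassignments
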